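import Pool.Agent.V7H47.LB.Spec

/-!
# The numeric piece NH
-/

set_option autoImplicit false

open Real Set

namespace Pool.Agent.V7H63.LB

open Pool.Agent.V7H47.LB

theorem poly_ineq (w : ℝ) (h1 : 817/5000 ≤ w) (h2 : w ≤ 2237/10000) :
    0 ≤ 3 * ((1/4 - w ^ 2) * (w * (1/4 + w ^ 2) ^ 3)) +
      (1/4 - w ^ 2) ^ 2 * (3 * (w * (1/4 + w ^ 2) ^ 2) + (-4) * w ^ 3) +
      (-1566/10000) * (1/4 + w ^ 2) ^ 3 := by
  have key : 3 * ((1/4 - w ^ 2) * (w * (1/4 + w ^ 2) ^ 3)) +
      (1/4 - w ^ 2) ^ 2 * (3 * (w * (1/4 + w ^ 2) ^ 2) + (-4) * w ^ 3) +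
      (-1566/10000) * (1/4 + w ^ 2) ^ 3 =
      (1209637257028318649600000000/4819555948700460976209) * (w - (817/5000)) ^ 0 * ((2237/10000) - w) ^ 9 +
      (10321300191088043510710400000000/390384031844737339072929) * (w - (817/5000)) ^ 1 * ((2237/10000) - w) ^ 8 +
      (69750106740683887508219200000000/390384031844737339072929) * (w - (817/5000)) ^ 2 * ((2237/10000) - w) ^ 7 +
      (207890432974567449592925600000000/390384031844737339072929) * (w - (817/5000)) ^ 3 * ((2237/10000) - w) ^ 6 +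
      (348388250165455187803577200000000/390384031844737339072929) * (w - (817/5000)) ^ 4 * ((2237/10000) - w) ^ 5 +
      (354645428958517999986279800000000/390384031844737339072929) * (w - (817/5000)) ^ 5 * ((2237/10000) - w) ^ 4 +
      (221005096826704948915008700000000/390384031844737339072929) * (w - (817/5000)) ^ 6 * ((2237/10000) - w) ^ 3 +
      (79951271710154666039766350000000/390384031844737339072929) * (w - (817/5000)) ^ 7 * ((2237/10000) - w) ^ 2 +
      (14308144577938735051883800000000/390384031844737339072929) * (w - (817/5000)) ^ 8 * ((2237/10000) - w) ^ 1 +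
      (741145094273893959624350000000/390384031844737339072929) * (w - (817/5000)) ^ 9 * ((2237/10000) - w) ^ 0 := by
    ring
  rw [key]
  have ha : 0 ≤ w - 817/5000 := by linarith
  have hb : 0 ≤ 2237/10000 - w := by linarith
  have hp : ∀ (c : ℝ) (i j : ℕ), 0 ≤ c → 0 ≤ c * (w - (817/5000)) ^ i * ((2237/10000) - w) ^ j :=
    fun c i j hc => mul_nonneg (mul_nonneg hc (pow_nonneg ha i)) (pow_nonneg hb j)
  refine add_nonneg (add_nonneg (add_nonneg (add_nonneg (add_nonneg (add_nonneg (add_nonneg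
    (add_nonneg (add_nonneg ?_ ?_) ?_) ?_) ?_) ?_) ?_) ?_) ?_) ?_ <;>
  exact hp _ _ _ (by norm_num)

/-- differences of tangents -/
theorem tan_diff {x y : ℝ} (h0 : 0 ≤ x) (h : x ≤ y) (hy : y < π / 2) : y - x ≤ tan y - tan x := by
  have hcx : 0 < cos x := cos_pos_of_mem_Ioo ⟨by linarith [pi_pos], by linarith⟩
  have hcy : 0 < cos y := cos_pos_of_mem_Ioo ⟨by linarith [pi_pos], by linarith⟩
  have hsx : 0 ≤ sin x := sin_nonneg_of_nonneg_of_le_pi h0 (by linarith)
  have hsy : 0 ≤ sin y := sin_nonneg_of_nonneg_of_le_pi (by linarith) (by linarith)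
  have h1 : y - x ≤ tan (y - x) := le_tan (by linarith) (by linarith)
  have hc : 0 < cos (y - x) := cos_pos_of_mem_Ioo ⟨by linarith [pi_pos], by linarith⟩
  have hs : 0 ≤ sin (y - x) := sin_nonneg_of_nonneg_of_le_pi (by linarith) (by linarith)
  have h2 : tan y - tan x = sin (y - x) / (cos x * cos y) := by
    rw [tan_eq_sin_div_cos, tan_eq_sin_div_cos, sin_sub]
    field_simp
  have h3 : cos x * cos y ≤ cos (y - x) := by
    rw [cos_sub]
    nlinarith [mul_nonneg hsx hsy]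
  rw [h2]
  refine h1.trans ?_
  rw [tan_eq_sin_div_cos]
  exact div_le_div_of_nonneg_left hs (mul_pos hcx hcy) h3

theorem sin_add_le {x y : ℝ} (hx : 0 ≤ x) (hy : 0 ≤ y) (h : x + y ≤ π) :
    sin (x + y) ≤ sin x + sin y := by
  have hsx : 0 ≤ sin x := sin_nonneg_of_nonneg_of_le_pi hx (by linarith)
  have hsy : 0 ≤ sin y := sin_nonneg_of_nonneg_of_le_pi hy (by linarith)
  rw [sin_add]
  nlinarith [cos_le_one x, cos_le_one y]

theorem t_NH : S_NH := by
  intro r g1 g2 g3 e1 e2 e3 hr1 hr2 hA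
  obtain ⟨a1, b1, a2, b2, a3, b3, n1, n2, n3, hsum, c1, c2, c3⟩ := hA
  obtain ⟨q, hqd⟩ : ∃ q : ℝ, q = 1 / 2 - r := ⟨_, rfl⟩
  rw [← hqd] at c1 c2 c3
  have hr3 : r ≤ 2233 / 10000 := by norm_num at hr2 ⊢; linarith
  have hr4 : 1 / 5 ≤ r := by norm_num at hr1 ⊢; linarith
  have hq : 0 < q := by linarith
  have hr0 : 0 < r := by linarith
  obtain ⟨x, hx⟩ : ∃ x : ℝ, x = r / q := ⟨_, rfl⟩
  have hx0 : 0 < x := by rw [hx]; positivity
  have hx1 : x ≤ 1 := by
    rw [hx, div_le_one hq]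
    linarith
  obtain ⟨θ, hθ⟩ : ∃ θ : ℝ, θ = arccos x := ⟨_, rfl⟩
  have hθ0 : 0 ≤ θ := hθ ▸ arccos_nonneg x
  have hge : ∀ g : ℝ, 0 < g → g < π / 2 → q * cos g ≤ r → θ ≤ g := by
    intro g h1 h2 h3
    have h4 : cos g ≤ x := by
      rw [hx, le_div_iff₀ hq]
      linarith
    rw [hθ, ← arccos_cos h1.le (by linarith)]
    exact arccos_le_arccos h4
  have t1 := tan_diff hθ0 (hge g1 a1 b1 c1) b1
  have t2 := tan_diff hθ0 (hge g2 a2 b2 c2) b2
  have t3 := tan_diff hθ0 (hge g3 a3 b3 c3) b3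
  -- the sines
  have s1 : sin (e1 + e2 + e3) ≤ sin e1 + sin e2 + sin e3 := by
    have h1 := sin_add_le (x := e1 + e2) (y := e3) (by linarith) n3 (by linarith)
    have h2 := sin_add_le (x := e1) (y := e2) n1 n2 (by linarith)
    linarith
  have s2 : sin (e1 + e2 + e3) = sin (g1 + g2 + g3) := by
    have : e1 + e2 + e3 = π - (g1 + g2 + g3) := by linarith
    rw [this, sin_pi_sub]
  have s3 : sin (3 * θ) - (g1 + g2 + g3 - 3 * θ) ≤ sin (g1 + g2 + g3) := by
    have h1 := abs_sin_sub_sin_le (3 * θ) (g1 + g2 + g3)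
    have h2 : |3 * θ - (g1 + g2 + g3)| = g1 + g2 + g3 - 3 * θ := by
      rw [abs_sub_comm, abs_of_nonneg]
      linarith [hge g1 a1 b1 c1, hge g2 a2 b2 c2, hge g3 a3 b3 c3]
    rw [h2] at h1
    have h3 := le_abs_self (sin (3 * θ) - sin (g1 + g2 + g3))
    linarith
  have main : 3 * tan θ + sin (3 * θ) ≤
      tan g1 + tan g2 + tan g3 + sin e1 + sin e2 + sin e3 := by linarith
  have hr2' : 0 ≤ r ^ 2 := by positivity
  refine le_trans ?_ (mul_le_mul_of_nonneg_left main hr2')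
  -- one variable
  obtain ⟨w, hw⟩ : ∃ w : ℝ, w = √(1 / 4 - r) := ⟨_, rfl⟩
  have hw0 : 0 ≤ w := hw ▸ sqrt_nonneg _
  have hw2 : w ^ 2 = 1 / 4 - r := by
    rw [hw, sq_sqrt]
    linarith
  have hq' : q = 1 / 4 + w ^ 2 := by linarith
  have hr' : r = 1 / 4 - w ^ 2 := by linarith
  have hsin : sin θ = w / q := by
    rw [hθ, sin_arccos]
    have h1 : 1 - x ^ 2 = (w / q) ^ 2 := by
      have h2 : q ^ 2 - r ^ 2 = w ^ 2 := by
        rw [hw2, hqd]
        ring
      rw [hx, div_pow, div_pow, ← h2]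
      field_simp
    rw [h1, sqrt_sq (by positivity)]
  have hcos : cos θ = r / q := by
    rw [hθ, cos_arccos (by linarith) hx1, hx]
  have htan : tan θ = w / r := by
    rw [tan_eq_sin_div_cos, hsin, hcos]
    field_simp
  rw [htan, sin_three_mul, hsin]
  have l1 : 817 / 5000 ≤ w := by
    by_contra hcon
    push Not at hcon
    nlinarith
  have l2 : w ≤ 2237 / 10000 := by
    by_contra hcon
    push Not at hcon
    nlinarith
  have hp := poly_ineq w l1 l2
  rw [← hq', ← hr'] at hp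
  have hpos : 0 < q ^ 3 := by positivity
  have hfin : r ^ 2 * (3 * (w / r) + (3 * (w / q) - 4 * (w / q) ^ 3)) - 0.1566 =
      (3 * (r * (w * q ^ 3)) + r ^ 2 * (3 * (w * q ^ 2) + (-4) * w ^ 3) +
      (-1566/10000) * q ^ 3) / q ^ 3 := by
    rw [eq_div_iff hpos.ne']
    field_simp
    ring
  have := div_nonneg hp hpos.le
  rw [← hfin] at this
  linarith

end Pool.Agent.V7H63.LB
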